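import Mathlib

/-!
# Statements: the Mahler measure of numbers near abelian extensions of fields of bounded degree

`z` is an element of degree at most `D` over an abelian extension `L` of a number field `K` of
degree at most `m`; `N` is a Galois extension of the rationals containing everything.
-/

set_option autoImplicit false

open NumberField Module Polynomial IntermediateField

namespace Pool.Agent.Helper72K9.AB

/-- the sum of `log max (1, |τ x|)` over the embeddings `τ` of `N` -/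
noncomputable def HN (N : Type) [Field N] [NumberField N] (x : N) : ℝ :=
  ∑ τ : N →+* ℂ, Real.log (max 1 ‖τ x‖)

/-- the Mahler measure of the minimal polynomial -/
noncomputable def MM (x : ℂ) : ℝ := ((minpoly ℤ x).map (Int.castRingHom ℂ)).mahlerMeasure

/-- [HM] the height of a conjugate of `z` in `N` -/
def S_HM : Prop := ∀ (N : Type) [Field N] [NumberField N] (x : N) (z : ℂ), IsIntegral ℤ z →
  aeval x (minpoly ℤ z) = 0 →
  ((minpoly ℤ z).natDegree : ℝ) * HN N x = (finrank ℚ N : ℝ) * Real.log (MM z)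

/-- [HP] height of powers (an equality for `b = a ^ k`) and non-negativity -/
def S_HP : Prop := ∀ (N : Type) [Field N] [NumberField N] (x : N) (k : ℕ),
  HN N (x ^ k) = k * HN N x ∧ 0 ≤ HN N x

/-- [SIZE] the norm of `∏ (x ^ a - (g_i x) ^ b)` is bounded above; `g_i` automorphisms of `N` -/
def S_SIZE : Prop := ∀ (N : Type) [Field N] [NumberField N] (x : N) (D a b : ℕ)
  (g : Fin D → (N ≃+* N)), ∏ i, (x ^ a - (g i x) ^ b) ≠ 0 →
  Real.log |((Algebra.norm ℚ (∏ i, (x ^ a - (g i x) ^ b)) : ℚ) : ℝ)| ≤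
    (finrank ℚ N : ℝ) * D * Real.log 2 + (D : ℝ) * ((a : ℝ) + b) * HN N x

/-- [NORM] the norm of a nonzero integer of `N` in the ideal generated by a prime `P` of `K` -/
def S_NORM : Prop := ∀ (K N : Type) [Field K] [NumberField K] [Field N] [NumberField N]
  [Algebra K N] (P : Ideal (𝓞 K)) (β : 𝓞 N), P.IsPrime → P ≠ ⊥ → β ≠ 0 →
  β ∈ P.map (algebraMap (𝓞 K) (𝓞 N)) →
  (finrank K N : ℝ) * Real.log (Ideal.absNorm P : ℝ) ≤
    Real.log |((Algebra.norm ℚ (β : N) : ℚ) : ℝ)|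

/-- [PRM] a prime above `p` in a field of degree at most `m` -/
def S_PRM : Prop := ∀ (K : Type) [Field K] [NumberField K] (m p : ℕ), finrank ℚ K ≤ m →
  p.Prime → ∃ P : Ideal (𝓞 K), P.IsPrime ∧ P ≠ ⊥ ∧ (p : 𝓞 K) ∈ P ∧
    ∃ a : ℕ, 0 < a ∧ a ≤ m ∧ Ideal.absNorm P = p ^ a

/-- [ROOTS] the conjugate polynomial `f ^ σ` of the minimal polynomial `f` of `z` over `L`: its
zeros are `s_i z` for automorphisms `s_i` of `N` over `K` which extend `σ` -/
def S_ROOTS : Prop := ∀ (K L N : Type) [Field K] [NumberField K] [Field L] [NumberField L]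
  [Field N] [NumberField N] [Algebra K L] [Algebra L N] [Algebra K N] [IsScalarTower K L N]
  [IsGalois K L] [IsGalois K N] (z : N) (σ : Gal(L/K)),
  ∃ s : Fin (minpoly L z).natDegree → Gal(N/K),
    (∀ i (x : L), s i (algebraMap L N x) = algebraMap L N (σ x)) ∧
    ((minpoly L z).map (σ : L →+* L)).map (algebraMap L N) = ∏ i, (X - C (s i z))

/-- [FINT] the minimal polynomial of an integer has integral coefficients -/
def S_FINT : Prop := ∀ (L N : Type) [Field L] [NumberField L] [Field N] [NumberField N]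
  [Algebra L N] (z : 𝓞 N), ∃ f : (𝓞 L)[X],
    f.map (algebraMap (𝓞 L) L) = minpoly L (z : N) ∧ f.Monic ∧ aeval z f = 0

/-- [CA] the congruence for Frobenius: `f ^ φ (z ^ q)` is in `𝔞` if `x ^ q - φ x` is in `𝔞` for
all `x` -/
def S_CA : Prop := ∀ (L N : Type) [Field L] [NumberField L] [Field N] [NumberField N]
  [Algebra L N] (p a : ℕ) (φ : 𝓞 L →+* 𝓞 L) (𝔞 : Ideal (𝓞 L)) (f : (𝓞 L)[X]) (z : 𝓞 N),
  p.Prime → (p : 𝓞 L) ∈ 𝔞 → (∀ x : 𝓞 L, x ^ p ^ a - φ x ∈ 𝔞) → aeval z f = 0 →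
  aeval (z ^ p ^ a) (f.map φ) ∈ 𝔞.map (algebraMap (𝓞 L) (𝓞 N))

/-- [CB] the congruence for inertia: `∏ (z ^ (p ^ k) - y_i ^ (p ^ k))` is in `𝔞`, if the `y_i` are
the zeros of `f ^ σ` and `σ x - x` is in `J` for all `x`, `J ^ e ≤ 𝔞`, `e ≤ p ^ k` -/
def S_CB : Prop := ∀ (L N : Type) [Field L] [NumberField L] [Field N] [NumberField N]
  [Algebra L N] (p k e D : ℕ) (σ : 𝓞 L →+* 𝓞 L) (𝔞 J : Ideal (𝓞 L)) (f : (𝓞 L)[X]) (z : 𝓞 N)
  (y : Fin D → 𝓞 N), p.Prime → (p : 𝓞 L) ∈ 𝔞 → (∀ x : 𝓞 L, σ x - x ∈ J) → J ^ e ≤ 𝔞 →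
  e ≤ p ^ k → aeval z f = 0 → (f.map σ).map (algebraMap (𝓞 L) (𝓞 N)) = ∏ i, (X - C (y i)) →
  ∏ i, (z ^ p ^ k - y i ^ p ^ k) ∈ 𝔞.map (algebraMap (𝓞 L) (𝓞 N))

/-- [PINE] inertia in abelian extensions: `I` is the inertia group of `P` -/
def S_PINE : Prop := ∀ (K L : Type) [Field K] [NumberField K] [Field L] [NumberField L]
  [Algebra K L] [IsAbelianGalois K L] (P : Ideal (𝓞 K)), P.IsPrime → P ≠ ⊥ →
  ∃ (I : Subgroup Gal(L/K)) (J : Ideal (𝓞 L)),
    (∀ σ ∈ I, ∀ x : 𝓞 L, σ • x - x ∈ J) ∧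
    J ^ Nat.card I ≤ P.map (algebraMap (𝓞 K) (𝓞 L)) ∧
    ∀ 𝔭 : Ideal (𝓞 (fixedField I)), 𝔭.IsPrime → 𝔭.LiesOver P → 𝔭.ramificationIdx (𝓞 K) = 1

/-- [PFRO] Frobenius in abelian extensions unramified at `P` -/
def S_PFRO : Prop := ∀ (K L : Type) [Field K] [NumberField K] [Field L] [NumberField L]
  [Algebra K L] [IsAbelianGalois K L] (P : Ideal (𝓞 K)), P.IsPrime → P ≠ ⊥ →
  (∀ 𝔭 : Ideal (𝓞 L), 𝔭.IsPrime → 𝔭.LiesOver P → 𝔭.ramificationIdx (𝓞 K) = 1) →
  ∃ φ : Gal(L/K), ∀ x : 𝓞 L,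
    x ^ Ideal.absNorm P - φ • x ∈ P.map (algebraMap (𝓞 K) (𝓞 L))

/-- [CASE] the unramified case -/
def S_CASE : Prop := ∀ (K L N : Type) [Field K] [NumberField K] [Field L] [NumberField L]
  [Field N] [NumberField N] [Algebra K L] [Algebra L N] [Algebra K N] [IsScalarTower K L N]
  [IsGalois K L] [IsGalois K N] (m D p a : ℕ) (P : Ideal (𝓞 K)) (φ : Gal(L/K)) (z : 𝓞 N),
  finrank ℚ K ≤ m → (minpoly L (z : N)).natDegree ≤ D → p.Prime → 4 ^ (m * D) ≤ p →
  P.IsPrime → P ≠ ⊥ → (p : 𝓞 K) ∈ P → 0 < a → Ideal.absNorm P = p ^ a →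
  (∀ x : 𝓞 L, x ^ p ^ a - φ • x ∈ P.map (algebraMap (𝓞 K) (𝓞 L))) →
  z ≠ 0 → (∀ k > 0, z ^ k ≠ 1) →
  (finrank ℚ N : ℝ) * Real.log 2 ≤ ((p : ℝ) ^ a + 1) * HN N (z : N)

/-- [RAMI] the ramified case, if one of the numbers is not zero -/
def S_RAMI : Prop := ∀ (K L N : Type) [Field K] [NumberField K] [Field L] [NumberField L]
  [Field N] [NumberField N] [Algebra K L] [Algebra L N] [Algebra K N] [IsScalarTower K L N]
  [IsGalois K L] [IsGalois K N] (m D p a k e : ℕ) (P : Ideal (𝓞 K)) (J : Ideal (𝓞 L))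
  (σ : Gal(L/K)) (z : 𝓞 N),
  finrank ℚ K ≤ m → (minpoly L (z : N)).natDegree ≤ D → p.Prime → 4 ^ (m * D) ≤ p →
  P.IsPrime → P ≠ ⊥ → (p : 𝓞 K) ∈ P → 0 < a → Ideal.absNorm P = p ^ a →
  (∀ x : 𝓞 L, σ • x - x ∈ J) → J ^ e ≤ P.map (algebraMap (𝓞 K) (𝓞 L)) → e ≤ p ^ k →
  (∀ τ : Gal(N/K), (∀ x : L, τ (algebraMap L N x) = algebraMap L N (σ x)) →
    τ ((z : N) ^ p ^ k) ≠ (z : N) ^ p ^ k) →
  (finrank ℚ N : ℝ) * Real.log 2 ≤ 2 * (p : ℝ) ^ k * HN N (z : N)

/-- [ORB] the degree over the fixed field of `I` -/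
def S_ORB : Prop := ∀ (K L N : Type) [Field K] [NumberField K] [Field L] [NumberField L]
  [Field N] [NumberField N] [Algebra K L] [Algebra L N] [Algebra K N] [IsScalarTower K L N]
  [IsGalois K L] [IsGalois K N] (I : Subgroup Gal(L/K)) (w : N),
  (∀ σ ∈ I, ∃ τ : Gal(N/K), (∀ x : L, τ (algebraMap L N x) = algebraMap L N (σ x)) ∧
    τ w = w) →
  (minpoly (fixedField I) w).natDegree ≤ (minpoly L w).natDegree

/-- [CORE] the bound for an abelian extension `L` of `K` -/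
def S_CORE : Prop := ∀ (K L N : Type) [Field K] [NumberField K] [Field L] [NumberField L]
  [Field N] [NumberField N] [Algebra K L] [Algebra L N] [Algebra K N] [IsScalarTower K L N]
  [IsAbelianGalois K L] [IsGalois K N] (m D p : ℕ) (z : 𝓞 N),
  finrank ℚ K ≤ m → (minpoly L (z : N)).natDegree ≤ D → p.Prime → 4 ^ (m * D) ≤ p →
  z ≠ 0 → (∀ k > 0, z ^ k ≠ 1) →
  (finrank ℚ N : ℝ) * Real.log 2 ≤
    ((p : ℝ) ^ m + 1) * (p * finrank K L) * HN N (z : N)

/-- [RED] reduction to the case that `L` is contained in `K (z)` -/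
def S_RED : Prop := ∀ (K L N : Type) [Field K] [NumberField K] [Field L] [NumberField L]
  [Field N] [NumberField N] [Algebra K L] [Algebra L N] [Algebra K N] [IsScalarTower K L N]
  [IsAbelianGalois K L] [IsGalois K N] (z : N),
  ∃ E : IntermediateField K N, IsAbelianGalois K E ∧
    (minpoly E z).natDegree ≤ (minpoly L z).natDegree ∧ finrank K E ≤ (minpoly ℚ z).natDegree

/-- The complex number `z` is conjugate to an element of an extension `M` of degree at most `D` of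
an abelian extension `L` of a number field `K` of degree at most `m`. -/
def NearAbelian (m D : ℕ) (z : ℂ) : Prop :=
  ∃ (K L M : Type) (_ : Field K) (_ : NumberField K) (_ : Field L) (_ : NumberField L)
    (_ : Field M) (_ : NumberField M) (_ : Algebra K L) (_ : Algebra L M),
    finrank ℚ K ≤ m ∧ IsAbelianGalois K L ∧ finrank L M ≤ D ∧
      ∃ β : M, aeval β (minpoly ℚ z) = 0

/-- the constant -/
noncomputable def kap (m D : ℕ) : ℝ := 1 / 4 ^ ((m + 1) * (m * D + 1) + 1)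

/-- [FIN] the bound for the Mahler measure -/
def S_FIN : Prop := ∀ (m D : ℕ) (z : ℂ), NearAbelian m D z → IsIntegral ℤ z → z ≠ 0 →
  (∀ k > 0, z ^ k ≠ 1) → kap m D ≤ Real.log (MM z)

/-- [GALN] Galois groups with a subgroup of small index with small commutator subgroup -/
def S_GALN : Prop := ∀ (m D : ℕ) (z : ℂ), IsIntegral ℤ z →
  (∃ H : Subgroup (minpoly ℚ z).Gal, H.index ≤ m ∧ Nat.card (commutator H) ≤ D) →
  NearAbelian m D z

/-- [EPS] numbers whose Galois group has commuting probability at least `ε` -/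
def S_EPS : Prop := ∀ ε : ℝ, 0 < ε → ∃ c : ℝ, 0 < c ∧ ∀ z : ℂ, IsIntegral ℤ z → z ≠ 0 →
  (∀ k > 0, z ^ k ≠ 1) → ε ≤ (commProb (minpoly ℚ z).Gal : ℝ) → c ≤ Real.log (MM z)

end Pool.Agent.Helper72K9.AB
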