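import Mathlib
import Pool.Agent.Helper72K9.AB.St

set_option autoImplicit false

open NumberField Module Polynomial IntermediateField

namespace Pool.Agent.Helper72K9.AB

namespace CoreL

lemma exists_pow (p e : ℕ) (hp : 2 ≤ p) (he : 1 ≤ e) : ∃ k : ℕ, e ≤ p ^ k ∧ p ^ k ≤ p * e := by
  classical
  have h1 : ∃ k, e ≤ p ^ k := ⟨e, (Nat.lt_pow_self (by omega)).le⟩
  refine ⟨Nat.find h1, Nat.find_spec h1, ?_⟩
  rcases Nat.eq_zero_or_pos (Nat.find h1) with h2 | h2
  · rw [h2, pow_zero]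
    nlinarith
  · obtain ⟨j, hj⟩ := Nat.exists_eq_succ_of_ne_zero h2.ne'
    rw [hj, pow_succ, mul_comm]
    have h3 : ¬ e ≤ p ^ j := Nat.find_min h1 (by omega)
    exact Nat.mul_le_mul_left _ (not_le.1 h3).le

end CoreL

theorem core (hPRM : S_PRM) (hPINE : S_PINE) (hPFRO : S_PFRO) (hCASE : S_CASE) (hRAMI : S_RAMI)
    (hORB : S_ORB) (hHP : S_HP) : S_CORE := by
  intro K L N fK nK fL nL fN nN aKL aLN aKN tow hab hgal m D p z hm hD hp h4 hz hr
  have hfKL : FiniteDimensional K L := Module.Finite.of_restrictScalars_finite ℚ K L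
  have hp1 : (1 : ℝ) ≤ p := by exact_mod_cast hp.one_lt.le
  have hH0 : 0 ≤ HN N (z : N) := (hHP N z 0).2
  obtain ⟨P, hP, hP0, hpP, a, ha0, ham, haP⟩ := hPRM K m p hm hp
  obtain ⟨I, J, hIJ, hJe, hunr⟩ := hPINE K L P hP hP0
  have hI1 : 1 ≤ Nat.card I := Nat.card_pos
  have hIL : Nat.card I ≤ finrank K L := by
    rw [← IsGalois.card_aut_eq_finrank]
    exact Subgroup.card_le_card_group I
  obtain ⟨k, hk1, hk2⟩ := CoreL.exists_pow p (Nat.card I) hp.two_le hI1
  have hk3 : (p : ℝ) ^ k ≤ p * finrank K L := by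
    have : p ^ k ≤ p * finrank K L := hk2.trans (Nat.mul_le_mul_left _ hIL)
    exact_mod_cast this
  have hpa : (p : ℝ) ^ a ≤ (p : ℝ) ^ m := pow_le_pow_right₀ hp1 ham
  by_cases hcase : ∃ σ ∈ I, ∀ τ : Gal(N/K),
      (∀ x : L, τ (algebraMap L N x) = algebraMap L N (σ x)) →
      τ ((z : N) ^ p ^ k) ≠ (z : N) ^ p ^ k
  · obtain ⟨σ, hσ, hne⟩ := hcase
    have h1 := hRAMI K L N m D p a k (Nat.card I) P J σ z hm hD hp h4 hP hP0 hpP ha0 haP
      (hIJ σ hσ) hJe hk1 hne
    refine h1.trans ?_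
    have h2 : (2 : ℝ) ≤ (p : ℝ) ^ m + 1 := by
      have : (1 : ℝ) ≤ (p : ℝ) ^ m := one_le_pow₀ hp1
      linarith
    gcongr
  · push Not at hcase
    set w : 𝓞 N := z ^ p ^ k with hw
    have hwN : (w : N) = (z : N) ^ p ^ k := by rw [hw]; simp
    have h1 := hORB K L N I (w : N) (fun σ hσ => by
      obtain ⟨τ, h2, h3⟩ := hcase σ hσ
      exact ⟨τ, h2, by rw [hwN]; exact h3⟩)
    have hdw : (minpoly L (w : N)).natDegree ≤ (minpoly L (z : N)).natDegree := by
      have hzi : IsIntegral L (z : N) := Algebra.IsIntegral.isIntegral _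
      have hwi : IsIntegral L (w : N) := Algebra.IsIntegral.isIntegral _
      rw [← IntermediateField.adjoin.finrank hzi, ← IntermediateField.adjoin.finrank hwi]
      have hle : L⟮(w : N)⟯ ≤ L⟮(z : N)⟯ := by
        rw [IntermediateField.adjoin_simple_le_iff, hwN]
        exact pow_mem (IntermediateField.mem_adjoin_simple_self L (z : N)) _
      have : FiniteDimensional L N := Module.Finite.of_restrictScalars_finite ℚ L N
      exact IntermediateField.finrank_le_of_le_right hle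
    have hfF : FiniteDimensional ℚ (fixedField I) := by
      have : FiniteDimensional K (fixedField I) := inferInstance
      exact FiniteDimensional.trans ℚ K _
    have hnF : NumberField (fixedField I) :=
      { to_charZero := inferInstance, to_finiteDimensional := hfF }
    have habF : IsAbelianGalois K (fixedField I) := inferInstance
    obtain ⟨φ, hφ⟩ := hPFRO K (fixedField I) P hP hP0 hunr
    have hwz : w ≠ 0 := pow_ne_zero _ hz
    have hwr : ∀ j > 0, w ^ j ≠ 1 := by
      intro j hj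
      rw [hw, ← pow_mul]
      exact hr _ (Nat.mul_pos (pow_pos hp.pos _) hj)
    have h2 := hCASE K (fixedField I) N m D p a P φ w hm (h1.trans (hdw.trans hD)) hp h4 hP hP0
      hpP ha0 haP (by rw [← haP]; exact hφ) hwz hwr
    rw [hwN, (hHP N (z : N) (p ^ k)).1] at h2
    refine h2.trans ?_
    push_cast
    calc ((p : ℝ) ^ a + 1) * ((p : ℝ) ^ k * HN N (z : N)) =
        ((p : ℝ) ^ a + 1) * (p : ℝ) ^ k * HN N (z : N) := by ring
      _ ≤ ((p : ℝ) ^ m + 1) * (p * finrank K L) * HN N (z : N) := by gcongr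

end Pool.Agent.Helper72K9.AB
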