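import Mathlib
import Pool.Agent.Helper72K9.AB.St
import Pool.Agent.Y392.Neu.Neumann

set_option autoImplicit false

open NumberField Module Polynomial IntermediateField

namespace Pool.Agent.Helper72K9.AB

namespace EpsL

lemma kap_pos (m D : ℕ) : 0 < kap m D := by
  unfold kap
  positivity

end EpsL

/-- the constant for commuting probability `ε` comes from P. M. Neumann's theorem -/
theorem eps_ (hFIN : S_FIN) (hGALN : S_GALN) : S_EPS := by
  intro ε hε
  obtain ⟨m, D, h⟩ := Pool.Agent.Y392.Neu.neumann.{0} ε hε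
  refine ⟨kap m D, EpsL.kap_pos m D, ?_⟩
  intro z hz h0 hr hp
  refine hFIN m D z (hGALN m D z hz ?_) hz h0 hr
  apply h
  have h1 : (commProb (minpoly ℚ z).Gal : ℝ) =
      (Nat.card {p : (minpoly ℚ z).Gal × (minpoly ℚ z).Gal // p.1 * p.2 = p.2 * p.1} : ℝ) /
        (Nat.card (minpoly ℚ z).Gal : ℝ) ^ 2 := by
    rw [commProb_def]
    push_cast
    rfl
  rw [h1, le_div_iff₀] at hp
  · exact hp
  · have : (0 : ℝ) < Nat.card (minpoly ℚ z).Gal := by exact_mod_cast Nat.card_pos
    positivity

end Pool.Agent.Helper72K9.AB
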