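import Mathlib
import Pool.Agent.Helper72K9.AB.St

set_option autoImplicit false

open NumberField Module Polynomial IntermediateField

namespace Pool.Agent.Helper72K9.AB

namespace FinL

lemma exists_closure_aux (M Ω : Type) [Field M] [NumberField M] [Field Ω] [CharZero Ω]
    [Algebra M Ω] [Normal ℚ Ω] :
    ∃ (N : Type) (_ : Field N) (_ : NumberField N) (_ : Algebra M N), IsGalois ℚ N := by
  have h1 : FiniteDimensional ℚ (normalClosure ℚ M Ω) := normalClosure.is_finiteDimensional ℚ M Ω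
  have h2 : Normal ℚ (normalClosure ℚ M Ω) := normalClosure.normal ℚ M Ω
  have h3 : NumberField (normalClosure ℚ M Ω) :=
    { to_charZero := inferInstance, to_finiteDimensional := h1 }
  refine ⟨normalClosure ℚ M Ω, inferInstance, h3, inferInstance, ?_⟩
  exact { to_isSeparable := inferInstance, to_normal := h2 }

lemma exists_closure (M : Type) [Field M] [NumberField M] :
    ∃ (N : Type) (_ : Field N) (_ : NumberField N) (_ : Algebra M N), IsGalois ℚ N := by
  have ha : Algebra.IsAlgebraic ℚ (AlgebraicClosure M) := Algebra.IsAlgebraic.trans ℚ M _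
  have hc : IsAlgClosure ℚ (AlgebraicClosure M) := ⟨inferInstance, ha⟩
  have hn : Normal ℚ (AlgebraicClosure M) := IsAlgClosure.normal ℚ _
  exact exists_closure_aux M (AlgebraicClosure M)

lemma kap_le {m D p : ℕ} (hp : 1 ≤ p) (hpu : p ≤ 2 * 4 ^ (m * D)) {x : ℝ}
    (hx : Real.log 2 ≤ ((p : ℝ) ^ m + 1) * p * x) : kap m D ≤ x := by
  have hp1 : (1 : ℝ) ≤ p := by exact_mod_cast hp
  have h1 : ((p : ℝ) ^ m + 1) * p ≤ 2 * (p : ℝ) ^ (m + 1) := by
    have h2 : (1 : ℝ) ≤ (p : ℝ) ^ m := one_le_pow₀ hp1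
    calc ((p : ℝ) ^ m + 1) * p ≤ ((p : ℝ) ^ m + (p : ℝ) ^ m) * p := by gcongr
      _ = 2 * (p : ℝ) ^ (m + 1) := by ring
  have h3 : (p : ℝ) ≤ 2 * 4 ^ (m * D) := by exact_mod_cast hpu
  have h4 : (p : ℝ) ^ (m + 1) ≤ (4 * 4 ^ (m * D)) ^ (m + 1) := by
    apply pow_le_pow_left₀ (by positivity)
    have : (0 : ℝ) < 4 ^ (m * D) := by positivity
    linarith
  have h5 : ((4 : ℝ) * 4 ^ (m * D)) ^ (m + 1) = 4 ^ ((m + 1) * (m * D + 1)) := by
    rw [← pow_succ', ← pow_mul]
    congr 1
    ring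
  have hl2 := Real.log_two_gt_d9
  have hxpos : 0 < x := by
    by_contra hcon
    push Not at hcon
    have : ((p : ℝ) ^ m + 1) * p * x ≤ 0 := mul_nonpos_of_nonneg_of_nonpos (by positivity) hcon
    linarith
  have h6 : (1 : ℝ) / 2 ≤ 2 * 4 ^ ((m + 1) * (m * D + 1)) * x := by
    calc (1 : ℝ) / 2 ≤ Real.log 2 := by linarith
      _ ≤ ((p : ℝ) ^ m + 1) * p * x := hx
      _ ≤ 2 * (p : ℝ) ^ (m + 1) * x := by gcongr
      _ ≤ 2 * 4 ^ ((m + 1) * (m * D + 1)) * x := by
        rw [← h5]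
        gcongr
  unfold kap
  rw [div_le_iff₀ (by positivity), pow_succ]
  linarith

end FinL

theorem fin_ (hHM : S_HM) (hCORE : S_CORE) (hRED : S_RED) : S_FIN := by
  rintro m D z ⟨K, L, M, fK, nK, fL, nL, fM, nM, aKL, aLM, hm, hab, hD, β, hβ⟩ hz h0 hr
  obtain ⟨N, fN, nN, aMN, hgal⟩ := FinL.exists_closure M
  let _ : Algebra L N := ((algebraMap M N).comp (algebraMap L M)).toAlgebra
  let _ : Algebra K N := ((algebraMap L N).comp (algebraMap K L)).toAlgebra
  have t1 : IsScalarTower L M N := IsScalarTower.of_algebraMap_eq (fun _ => rfl)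
  have t2 : IsScalarTower K L N := IsScalarTower.of_algebraMap_eq (fun _ => rfl)
  have hgK : IsGalois K N := IsGalois.tower_top_of_isGalois ℚ K N
  have hN0 : (0 : ℝ) < finrank ℚ N := by exact_mod_cast finrank_pos
  -- the element
  set x : N := algebraMap M N β with hx
  have hmz : minpoly ℚ z = (minpoly ℤ z).map (algebraMap ℤ ℚ) :=
    minpoly.isIntegrallyClosed_eq_field_fractions' ℚ hz
  have hxq : aeval x (minpoly ℚ z) = 0 := by
    rw [hx, aeval_algebraMap_apply, hβ, map_zero]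
  have hxz : aeval x (minpoly ℤ z) = 0 := by
    rw [hmz, aeval_map_algebraMap] at hxq
    exact hxq
  have hxi : IsIntegral ℤ x := ⟨minpoly ℤ z, minpoly.monic hz, hxz⟩
  have hirr : Irreducible (minpoly ℚ z) := minpoly.irreducible hz.tower_top
  have hmx : minpoly ℚ z = minpoly ℚ x :=
    minpoly.eq_of_irreducible_of_monic hirr hxq (minpoly.monic hz.tower_top)
  -- `x` is neither zero nor a root of unity
  have hx0 : x ≠ 0 := by
    intro h
    rw [h] at hmx
    have h1 : aeval z (minpoly ℚ (0 : N)) = 0 := by rw [← hmx, minpoly.aeval]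
    rw [minpoly.zero, aeval_X] at h1
    exact h0 h1
  have hxr : ∀ k > 0, x ^ k ≠ 1 := by
    intro k hk h
    have h1 : minpoly ℚ x ∣ X ^ k - 1 := minpoly.dvd _ _ (by simp [h])
    rw [← hmx] at h1
    obtain ⟨g, hg⟩ := h1
    have h2 : aeval z (X ^ k - 1 : ℚ[X]) = 0 := by rw [hg, map_mul, minpoly.aeval, zero_mul]
    simp only [map_sub, map_pow, aeval_X, map_one] at h2
    exact hr k hk (sub_eq_zero.1 h2)
  let y : 𝓞 N := ⟨x, hxi⟩
  have hyx : (y : N) = x := rfl
  have hy0 : y ≠ 0 := by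
    intro h
    apply hx0
    rw [← hyx, h]
    simp
  have hyr : ∀ k > 0, y ^ k ≠ 1 := by
    intro k hk h
    apply hxr k hk
    rw [← hyx]
    have := congrArg (fun t : 𝓞 N => (t : N)) h
    simpa using this
  -- the degree
  have hdeg : (minpoly L x).natDegree ≤ D := by
    have h1 : minpoly L x = minpoly L β := minpoly.algebraMap_eq (algebraMap M N).injective β
    rw [h1]
    exact (minpoly.natDegree_le β).trans hD
  obtain ⟨E, hE1, hE2, hE3⟩ := hRED K L N x
  -- a prime
  obtain ⟨p, hp, hpl, hpu⟩ := Nat.exists_prime_lt_and_le_two_mul (4 ^ (m * D)) (by positivity)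
  have hfE : FiniteDimensional ℚ E := by
    have : FiniteDimensional K E := inferInstance
    exact FiniteDimensional.trans ℚ K E
  have hnE : NumberField E := { to_charZero := inferInstance, to_finiteDimensional := hfE }
  have hc := hCORE K E N m D p y hm (hE2.trans hdeg) hp hpl.le hy0 hyr
  rw [hyx] at hc
  have hm1 := hHM N x z hz hxz
  have hdz : (minpoly ℤ z).natDegree = (minpoly ℚ x).natDegree := by
    rw [← hmx, hmz, natDegree_map_eq_of_injective (algebraMap ℤ ℚ).injective_int]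
  have hHN0 : 0 ≤ HN N x := by
    unfold HN
    apply Finset.sum_nonneg
    intro τ _
    exact Real.log_nonneg (le_max_left _ _)
  have hle : ((p : ℝ) ^ m + 1) * (p * finrank K E) * HN N x ≤
      ((p : ℝ) ^ m + 1) * p * ((minpoly ℤ z).natDegree * HN N x) := by
    have h1 : (finrank K E : ℝ) ≤ (minpoly ℤ z).natDegree := by
      rw [hdz]
      exact_mod_cast hE3
    calc ((p : ℝ) ^ m + 1) * (p * finrank K E) * HN N x
        ≤ ((p : ℝ) ^ m + 1) * (p * (minpoly ℤ z).natDegree) * HN N x := by gcongr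
      _ = ((p : ℝ) ^ m + 1) * p * ((minpoly ℤ z).natDegree * HN N x) := by ring
  have h2 := hc.trans hle
  rw [hm1] at h2
  have h3 : (finrank ℚ N : ℝ) * Real.log 2 ≤
      (finrank ℚ N : ℝ) * (((p : ℝ) ^ m + 1) * p * Real.log (MM z)) := by
    refine h2.trans (le_of_eq ?_)
    ring
  exact FinL.kap_le hp.one_lt.le hpu (le_of_mul_le_mul_left h3 hN0)

end Pool.Agent.Helper72K9.AB
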