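import Mathlib
import Pool.Agent.Helper72K9.AB.St

set_option autoImplicit false

open NumberField Module Polynomial IntermediateField

namespace Pool.Agent.Helper72K9.AB

namespace OrbL

/-- comparison of degrees by roots -/
lemma natDegree_le_of_roots {F L N : Type} [Field F] [Field L] [Field N] [Algebra F N]
    [Algebra L N] (f : F[X]) (g : L[X]) (hf : f.Separable)
    (hs : (f.map (algebraMap F N)).Splits) (hg : g ≠ 0)
    (h : ∀ y : N, aeval y f = 0 → aeval y g = 0) : f.natDegree ≤ g.natDegree := by
  classical
  have h1 : (f.map (algebraMap F N)).Separable := hf.map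
  have h2 : (f.map (algebraMap F N)).roots.Nodup := nodup_roots h1
  have h3 : Multiset.card (f.map (algebraMap F N)).roots = f.natDegree := by
    rw [← hs.natDegree_eq_card_roots, natDegree_map]
  have h4 : (f.map (algebraMap F N)).roots ≤ (g.map (algebraMap L N)).roots := by
    rw [Multiset.le_iff_subset h2]
    intro y hy
    have hf0 : f.map (algebraMap F N) ≠ 0 := h1.ne_zero
    have hg0 : g.map (algebraMap L N) ≠ 0 := (Polynomial.map_ne_zero_iff
      (algebraMap L N).injective).2 hg
    rw [mem_roots hf0, IsRoot.def, eval_map_algebraMap] at hy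
    rw [mem_roots hg0, IsRoot.def, eval_map_algebraMap]
    exact h y hy
  rw [← h3]
  exact (Multiset.card_le_card h4).trans ((card_roots' _).trans natDegree_map_le)

end OrbL

theorem orb : S_ORB := by
  intro K L N fK nK fL nL fN nN aKL aLN aKN tow gKL gKN I w h
  have hfL : FiniteDimensional L N := Module.Finite.of_restrictScalars_finite ℚ L N
  have hfKL : FiniteDimensional K L := Module.Finite.of_restrictScalars_finite ℚ K L
  have hgLN : IsGalois L N := IsGalois.tower_top_of_isGalois K L N
  have t : IsScalarTower K (fixedField I) N := by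
    refine IsScalarTower.of_algebraMap_eq (fun x => ?_)
    rw [IsScalarTower.algebraMap_apply K L N]
    rfl
  have hgF : IsGalois (fixedField I) N := IsGalois.tower_top_of_isGalois K (fixedField I) N
  have hwL : IsIntegral L w := Algebra.IsIntegral.isIntegral _
  refine OrbL.natDegree_le_of_roots (N := N) _ _ (IsGalois.separable (fixedField I) w)
    (IsGalois.splits (fixedField I) w) (minpoly.ne_zero hwL) ?_
  intro y hy
  -- `y = g w`
  obtain ⟨g, hg⟩ : ∃ g : Gal(N/fixedField I), g w = y :=
    minpoly.exists_algEquiv_of_root' (Algebra.IsAlgebraic.isAlgebraic w) hy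
  -- restriction of `g` to `L`
  set gK : Gal(N/K) := AlgEquiv.restrictScalars K g with hgK
  have hgKy : ∀ u : N, gK u = g u := fun _ => rfl
  set r : Gal(L/K) := gK.restrictNormal L with hr
  have hrc : ∀ x : L, algebraMap L N (r x) = gK (algebraMap L N x) := fun x =>
    AlgEquiv.restrictNormal_commutes gK L x
  have hrI : r ∈ I := by
    have h1 : r ∈ fixingSubgroup (fixedField I) := by
      rw [IntermediateField.mem_fixingSubgroup_iff]
      intro x hx
      apply (algebraMap L N).injective
      rw [hrc, hgKy]
      exact g.commutes (⟨x, hx⟩ : fixedField I)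
    rwa [IntermediateField.fixingSubgroup_fixedField] at h1
  obtain ⟨τ, hτ1, hτ2⟩ := h r hrI
  -- `g τ⁻¹` fixes `L`
  have hfix : ∀ x : L, (gK * τ⁻¹) (algebraMap L N x) = algebraMap L N x := by
    intro x
    have h1 : τ⁻¹ (algebraMap L N x) = algebraMap L N (r⁻¹ x) := by
      rw [AlgEquiv.aut_inv, AlgEquiv.symm_apply_eq, hτ1, AlgEquiv.aut_inv,
        AlgEquiv.apply_symm_apply]
    rw [AlgEquiv.mul_apply, h1, ← hrc, AlgEquiv.aut_inv, AlgEquiv.apply_symm_apply]
  let q : N →ₐ[L] N := { (gK * τ⁻¹ : Gal(N/K)).toAlgHom.toRingHom with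
    commutes' := hfix }
  have hq : q w = y := by
    change (gK * τ⁻¹) w = y
    rw [AlgEquiv.mul_apply]
    have h1 : τ⁻¹ w = w := by
      rw [AlgEquiv.aut_inv, AlgEquiv.symm_apply_eq, hτ2]
    rw [h1, hgKy, hg]
  rw [← hq, aeval_algHom_apply, minpoly.aeval, map_zero]

end Pool.Agent.Helper72K9.AB
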