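import Pool.Agent.Helper72K9.AB.St

/-!
# [RED]: reduction to the case that `L` is contained in `K (z)`
-/

set_option autoImplicit false

open NumberField Module Polynomial IntermediateField

namespace Pool.Agent.Helper72K9.AB

/-- the minimal polynomial over `L` is fixed by the automorphisms which fix `z` -/
theorem red_fix {K L N : Type} [Field K] [NumberField K] [Field L] [NumberField L]
    [Field N] [NumberField N] [Algebra K L] [Algebra L N] [Algebra K N] [IsScalarTower K L N]
    [IsGalois K L] [IsGalois K N] (z : N) (τ : Gal(N/K)) (hτ : τ z = z) (i : ℕ) :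
    τ (algebraMap L N ((minpoly L z).coeff i)) = algebraMap L N ((minpoly L z).coeff i) := by
  set σ : Gal(L/K) := τ.restrictNormal L with hσ
  have hc : ∀ x : L, algebraMap L N (σ x) = τ (algebraMap L N x) := fun x =>
    AlgEquiv.restrictNormal_commutes τ L x
  have hint : IsIntegral L z := Algebra.IsIntegral.isIntegral z
  have hm : ((minpoly L z).map (σ : L →+* L)).Monic := (minpoly.monic hint).map _
  have h0 : aeval z ((minpoly L z).map (σ : L →+* L)) = 0 := by
    have h1 : aeval z ((minpoly L z).map (σ : L →+* L)) = τ (aeval z (minpoly L z)) := by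
      rw [aeval_def, eval₂_map, aeval_def]
      have h2 : τ (eval₂ (algebraMap L N) z (minpoly L z)) =
          eval₂ ((τ : N →+* N).comp (algebraMap L N)) (τ z) (minpoly L z) := by
        exact hom_eval₂ (minpoly L z) (algebraMap L N) (τ : N →+* N) z
      rw [h2, hτ]
      congr 1
      ext x
      exact hc x
    rw [h1, minpoly.aeval, map_zero]
  have hd : minpoly L z ∣ (minpoly L z).map (σ : L →+* L) := minpoly.dvd L z h0
  have he : (minpoly L z).map (σ : L →+* L) = minpoly L z := by
    apply eq_of_monic_of_dvd_of_natDegree_le (minpoly.monic hint) hm hd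
    rw [natDegree_map]
  rw [← hc]
  congr 1
  have h3 : ((minpoly L z).map (σ : L →+* L)).coeff i = (minpoly L z).coeff i := by rw [he]
  rw [coeff_map] at h3
  exact h3

theorem red : S_RED := by
  intro K L N _ _ _ _ _ _ _ _ _ _ _ _ z
  set E : IntermediateField K N := (IsScalarTower.toAlgHom K L N).fieldRange ⊓ K⟮z⟯ with hE
  have hEL : E ≤ (IsScalarTower.toAlgHom K L N).fieldRange := inf_le_left
  have hEz : E ≤ K⟮z⟯ := inf_le_right
  have h1 : IsAbelianGalois K (IsScalarTower.toAlgHom K L N).fieldRange := by
    refine IsAbelianGalois.of_algHom (M := L)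
      (AlgHomClass.toAlgHom (AlgEquiv.ofInjectiveField (IsScalarTower.toAlgHom K L N)).symm)
  refine ⟨E, IsAbelianGalois.of_algHom (inclusion hEL), ?_, ?_⟩
  · have hco : ∀ i, algebraMap L N ((minpoly L z).coeff i) ∈ E := by
      intro i
      rw [hE, mem_inf]
      refine ⟨⟨(minpoly L z).coeff i, rfl⟩, ?_⟩
      rw [← IsGalois.fixedField_fixingSubgroup K⟮z⟯, mem_fixedField_iff]
      intro τ hτ
      apply red_fix z τ
      rw [IntermediateField.mem_fixingSubgroup_iff] at hτ
      exact hτ z (mem_adjoin_simple_self K z)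
    have hl : (minpoly L z).map (algebraMap L N) ∈ lifts (algebraMap E N) := by
      rw [lifts_iff_coeff_lifts]
      intro i
      rw [coeff_map]
      exact ⟨⟨_, hco i⟩, rfl⟩
    obtain ⟨g, hg, hgd, hgm⟩ := lifts_and_natDegree_eq_and_monic hl
      ((minpoly.monic (Algebra.IsIntegral.isIntegral z)).map _)
    have h0 : aeval z g = 0 := by
      rw [aeval_def, ← eval_map, hg, eval_map, ← aeval_def, minpoly.aeval]
    calc (minpoly E z).natDegree ≤ g.natDegree := natDegree_le_of_dvd (minpoly.dvd E z h0) hgm.ne_zero
      _ = ((minpoly L z).map (algebraMap L N)).natDegree := hgd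
      _ = (minpoly L z).natDegree := natDegree_map _
  · have hint : IsIntegral K z := Algebra.IsIntegral.isIntegral z
    have h2 : finrank K E ≤ finrank K K⟮z⟯ :=
      LinearMap.finrank_le_finrank_of_injective (f := (inclusion hEz).toLinearMap)
        (inclusion_injective hEz)
    have h3 : finrank K K⟮z⟯ = (minpoly K z).natDegree := adjoin.finrank hint
    have h4 : minpoly K z ∣ (minpoly ℚ z).map (algebraMap ℚ K) :=
      minpoly.dvd_map_of_isScalarTower ℚ K z
    have h5 : (minpoly ℚ z).map (algebraMap ℚ K) ≠ 0 :=
      ((minpoly.monic (Algebra.IsIntegral.isIntegral z)).map _).ne_zero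
    calc finrank K E ≤ finrank K K⟮z⟯ := h2
      _ = (minpoly K z).natDegree := h3
      _ ≤ ((minpoly ℚ z).map (algebraMap ℚ K)).natDegree := natDegree_le_of_dvd h4 h5
      _ = (minpoly ℚ z).natDegree := natDegree_map _

end Pool.Agent.Helper72K9.AB
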