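import Mathlib
import Pool.Agent.Helper72K9.AB.Fin
import Pool.Agent.Helper72K9.AB.Core
import Pool.Agent.Helper72K9.AB.Orb
import Pool.Agent.Helper72K9.AB.Red
import Pool.Agent.Helper42K9.AB.Ca
import Pool.Agent.Helper42K9.AB.Pf
import Pool.Agent.Helper55K9.AB.Fint
import Pool.Agent.Helper55K9.AB.Hm
import Pool.Agent.Helper55K9.AB.Roots
import Pool.Agent.Helper55K9.AB.Size
import Pool.Agent.Helper76K9.AB.Case
import Pool.Agent.Helper76K9.AB.Norm

/-!
# The Mahler measure of numbers near abelian extensions: the pieces put together
-/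

set_option autoImplicit false

namespace Pool.Agent.Helper72K9.AB

theorem core_final : S_CORE := by
  have hR := Helper55K9.AB.roots
  have hF := Helper55K9.AB.fint
  have hN := Helper76K9.AB.norm
  have hS := Helper55K9.AB.size
  have hH := Helper55K9.AB.hp
  exact core Helper76K9.AB.prm Helper42K9.AB.pine Helper42K9.AB.pfro
    (Helper76K9.AB.case_ok hR hF Helper42K9.AB.ca hN hS hH)
    (Helper76K9.AB.rami hR hF Helper42K9.AB.cb hN hS hH) orb hH

/-- **numbers of degree at most `D` over abelian extensions of fields of degree at most `m`** -/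
theorem fin_final : S_FIN := fin_ Helper55K9.AB.hm core_final red

end Pool.Agent.Helper72K9.AB
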