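import Pool.Agent.Helper72K9.AB.St

/-!
# [GALN]: Galois groups with a subgroup of small index with small commutator subgroup
-/

set_option autoImplicit false

open NumberField Module Polynomial IntermediateField

namespace Pool.Agent.Helper72K9.AB

theorem galn_card {G G' : Type} [Group G] [Group G'] (e : G ≃* G') :
    Nat.card (commutator G) = Nat.card (commutator G') := by
  have h : (commutator G).map e.toMonoidHom = commutator G' := by
    rw [commutator_def, commutator_def, Subgroup.map_commutator]
    rw [Subgroup.map_top_of_surjective _ e.surjective]
  rw [← h]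
  exact (Subgroup.card_map_of_injective (f := e.toMonoidHom) e.injective).symm

theorem galn : S_GALN := by
  intro m D z hz ⟨H, hH, hD⟩
  have hzQ : IsIntegral ℚ z := hz.tower_top
  let S : Type := (minpoly ℚ z).SplittingField
  have : NumberField S := NumberField.of_module_finite ℚ S
  have : IsSplittingField ℚ S (minpoly ℚ z) := IsSplittingField.splittingField (minpoly ℚ z)
  have : IsGalois ℚ S := IsGalois.of_separable_splitting_field (p := minpoly ℚ z)
    ((minpoly.irreducible hzQ).separable)
  let H' : Subgroup Gal(S/ℚ) := H
  let K : IntermediateField ℚ S := fixedField H'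
  let C : Subgroup Gal(S/K) := commutator Gal(S/K)
  have : C.Normal := by
    change (commutator Gal(S/K)).Normal
    infer_instance
  let L : IntermediateField K S := fixedField C
  have : NumberField L := NumberField.of_intermediateField (K := K) (L := S) L
  refine ⟨K, L, S, inferInstance, inferInstance, inferInstance, inferInstance, inferInstance,
    inferInstance, inferInstance, inferInstance, ?_, ?_, ?_, ?_⟩
  · have h1 : finrank ℚ K = K.fixingSubgroup.index := finrank_eq_fixingSubgroup_index S K
    rw [h1, fixingSubgroup_fixedField]
    exact hH
  · have : IsGalois K L := IsGalois.of_fixedField_normal_subgroup C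
    have h2 : ∀ x y : Gal(L/K), x * y = y * x := by
      intro x y
      obtain ⟨x', rfl⟩ := (IsGalois.normalAutEquivQuotient C).surjective x
      obtain ⟨y', rfl⟩ := (IsGalois.normalAutEquivQuotient C).surjective y
      rw [← map_mul, ← map_mul]
      congr 1
      exact mul_comm (G := Abelianization Gal(S/K)) x' y'
    exact { is_comm := ⟨h2⟩ }
  · have h3 : finrank L S = Nat.card C := finrank_fixedField_eq_card C
    rw [h3]
    have h4 : Nat.card C = Nat.card (commutator H) :=
      (galn_card (subgroupEquivAlgEquiv H')).symm
    rw [h4]
    exact hD
  · have hs : ((minpoly ℚ z).map (algebraMap ℚ S)).Splits := SplittingField.splits _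
    have hd : ((minpoly ℚ z).map (algebraMap ℚ S)).degree ≠ 0 := by
      rw [degree_map]
      exact (minpoly.degree_pos hzQ).ne'
    refine ⟨rootOfSplits hs hd, ?_⟩
    rw [aeval_def, ← eval_map]
    exact eval_rootOfSplits hs hd

end Pool.Agent.Helper72K9.AB
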