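import Mathlib
import Pool.Agent.Helper34K9.UG.Mix

/-!
# The growth gap for a class of units with a Mahler measure bounded below
-/

set_option autoImplicit false

namespace Pool.Agent.Helper72K9.AB

open Filter Topology Polynomial
open scoped Pointwise commutatorElement TensorProduct ComplexConjugate

open Pool.Agent Pool.Agent.TH53.UG Pool.Agent.W963.GE Pool.Agent.R976.UG Pool.Agent.R701.UG

universe u

lemma half_le_eta {x : ℂ} (h0 : x ≠ 0) (hxi : IsIntegral ℤ x) (hroot : ∀ m > 0, x ^ m ≠ 1)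
    {δ : ℝ} (he : 0 < δ) (he2 : δ ≤ 1 / 180)
    (h : IsIntegral ℤ x⁻¹ → δ ≤ Real.log (MM x)) : δ / 2 ≤ H746UG.eta x := by
  by_cases hi : IsIntegral ℤ x⁻¹
  · exact eta_boundC h0 hxi hroot he he2 (h hi)
  · rw [H746UG.eta_eq_log_two x h0 (fun h => hi h.2)]
    have := Real.log_two_gt_d9
    linarith

/-- **the gap**, for the eigenvalues in a class of units with Mahler measure bounded below -/
theorem gap_class {k d : ℕ} (hk : 1 ≤ k) {δ : ℝ} (he : 0 < δ) (he2 : δ ≤ 1 / 180)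
    (Good : ℂ → Prop) (hgood : ∀ x : ℂ, UnitNR x → Good x → δ ≤ Real.log (MM x))
    {G : Type u} [Group G]
    (S : Set G) (hfin : S.Finite) (hgen : Subgroup.closure S = ⊤) (H : Subgroup G)
    (hH0 : H.index ≠ 0) (hHd : H.index ≤ d)
    (hnil : Group.IsNilpotent (gam H k) ∨ ¬ Group.IsVirtuallyNilpotent (H ⧸ ⁅gam H k, gam H k⁆)) :
    Group.IsVirtuallyNilpotent G ∨
      δ / (2 ^ (k + 2) * (2 * d - 1)) ≤ H746UG.rho S ∨
      ∃ (t : H) (x : ℂ), Module.End.HasEigenvalue
        (LinearMap.baseChange ℂ (act (gam H k) t) :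
          Module.End ℂ (ℂ ⊗[ℤ] (Additive (Abelianization (gam H k))))) x ∧ UnitNR x ∧
        ¬ Good x ∧
        min (1 / 180) (Real.log (MM x)) / (2 ^ (k + 2) * (2 * d - 1)) ≤ H746UG.rho S := by
  have hd : (1 : ℝ) ≤ d := by
    have : 1 ≤ d := by omega
    exact_mod_cast this
  have hLpos : (0 : ℝ) < 2 ^ (k + 1) * (2 * d - 1) := by
    have : (0 : ℝ) < 2 * d - 1 := by linarith
    positivity
  have e : ∀ c : ℝ, c / (2 ^ (k + 2) * (2 * d - 1)) = (c / 2) / (2 ^ (k + 1) * (2 * d - 1)) := by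
    intro c
    rw [div_div]
    congr 1
    ring
  have hl2 := Real.log_two_gt_d9
  rcases Helper34K9.UG.gap_track hk S hfin hgen H hH0 hHd hnil with
    h | h | ⟨t, x, hE, h0, hi, hroot, h⟩
  · exact Or.inl h
  · right; left
    rw [e]
    refine le_trans ?_ h
    gcongr
    linarith
  · right
    by_cases hg : IsIntegral ℤ x⁻¹ → Good x
    · left
      rw [e]
      refine le_trans ?_ h
      gcongr
      exact half_le_eta h0 hi hroot he he2 (fun h1 => hgood x ⟨h0, hi, h1, hroot⟩ (hg h1))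
    · right
      rw [Classical.not_imp] at hg
      refine ⟨t, x, hE, ⟨h0, hi, hg.1, hroot⟩, hg.2, ?_⟩
      rw [e]
      refine le_trans ?_ h
      gcongr
      have hM := Real.log_pos (MM_gt x hi h0 hroot)
      exact eta_boundC h0 hi hroot (lt_min (by norm_num) hM) (min_le_left _ _) (min_le_right _ _)

/-- Lehmer's problem for the units that are not in the class -/
def LehmC (Good : ℂ → Prop) : Prop :=
  ∃ ε > 0, ∀ x : ℂ, UnitNR x → ¬ NotRecip x → ¬ Good x → 1 + ε ≤ MM x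

theorem lehm_of_lehmC {δ : ℝ} (he : 0 < δ) (Good : ℂ → Prop)
    (hgood : ∀ x : ℂ, UnitNR x → Good x → δ ≤ Real.log (MM x)) (h : LehmC Good) : Lehm := by
  obtain ⟨ε, hε, h⟩ := h
  refine ⟨min ε δ, lt_min hε he, ?_⟩
  intro x hx hr
  by_cases hg : Good x
  · have h1 := hgood x hx hg
    have hM : 0 < MM x := zero_lt_one.trans_le (MM_ge x hx.2.1)
    have h2 : 1 + δ ≤ MM x := by
      rw [← Real.exp_log hM]
      have := Real.add_one_le_exp (Real.log (MM x))
      linarith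
    linarith [min_le_right ε δ]
  · linarith [h x hx hr hg, min_le_left ε δ]

theorem equiv_class {δ : ℝ} (he : 0 < δ) (Good : ℂ → Prop)
    (hgood : ∀ x : ℂ, UnitNR x → Good x → δ ≤ Real.log (MM x)) :
    ((∃ c > 0, CTwo c) ↔ LehmC Good) ∧
      ((∀ k : ℕ, 1 ≤ k → ∃ c > 0, CK k c) ↔ LehmC Good) := by
  have h1 : Lehm ↔ LehmC Good := by
    refine ⟨?_, lehm_of_lehmC he Good hgood⟩
    rintro ⟨ε, hε, h⟩
    exact ⟨ε, hε, fun x hx hr _ => h x hx hr⟩
  exact ⟨equiv_all.1.trans h1, equiv_all.2.trans h1⟩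

end Pool.Agent.Helper72K9.AB
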